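import Mathlib

/-!
# Brauer's bound for numerical semigroups, and counting multiples
-/

set_option autoImplicit false

namespace Pool.Agent.Y188

open Finset

/-- the numbers `lcm (a_l, gcd (g, a_1, …, a_(l-1)))` -/
def bra : ℕ → List ℕ → List ℕ
  | _, [] => []
  | g, a :: l => Nat.lcm g a :: bra (Nat.gcd g a) l

/-- the numbers represented by `g` and the members of `l` -/
def sg (g : ℕ) (l : List ℕ) : AddSubmonoid ℕ := AddSubmonoid.closure (insert g {x | x ∈ l})

theorem two_gen {g a u : ℕ} (hg : 0 < g) (ha : 0 < a) (hu : Nat.gcd g a ∣ u)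
    (h : Nat.lcm g a + Nat.gcd g a ≤ u + g + a) : ∃ x y : ℕ, x * g + y * a = u := by
  have hd : 0 < Nat.gcd g a := Nat.gcd_pos_of_pos_left _ hg
  obtain ⟨g', a', hco, hg', ha'⟩ : ∃ g' a', Nat.Coprime g' a' ∧ g = g' * Nat.gcd g a ∧
      a = a' * Nat.gcd g a := Nat.exists_coprime g a
  set D := Nat.gcd g a with hD
  obtain ⟨w, rfl⟩ := hu
  have hg0 : 0 < g' := Nat.pos_of_ne_zero (by rintro rfl; omega)
  have ha0 : 0 < a' := Nat.pos_of_ne_zero (by rintro rfl; omega)
  have hl : Nat.lcm g a = g' * a' * D := by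
    have h1 := Nat.gcd_mul_lcm g a
    rw [← hD] at h1
    have h2 : D * Nat.lcm g a = D * (g' * a' * D) := by
      rw [h1]
      conv_lhs => rw [hg', ha']
      ring
    exact Nat.eq_of_mul_eq_mul_left hd h2
  rw [hl] at h
  have h2 : g' * a' + 1 ≤ w + g' + a' := by
    have h3 : (g' * a' + 1) * D ≤ (w + g' + a') * D := by
      calc (g' * a' + 1) * D = g' * a' * D + D := by ring
        _ ≤ D * w + g + a := h
        _ = (w + g' + a') * D := by
            conv_lhs => rw [hg', ha']
            ring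
    exact Nat.le_of_mul_le_mul_right h3 hd
  have h4 : g'.pred * a'.pred ≤ w := by
    obtain ⟨s, rfl⟩ := Nat.exists_eq_succ_of_ne_zero hg0.ne'
    obtain ⟨t, rfl⟩ := Nat.exists_eq_succ_of_ne_zero ha0.ne'
    simp only [Nat.pred_succ]
    have : (s + 1) * (t + 1) = s * t + s + t + 1 := by ring
    simp only [Nat.succ_eq_add_one] at h2
    rw [this] at h2
    omega
  obtain ⟨x, y, hxy⟩ := Nat.exists_add_mul_eq_of_gcd_dvd_of_mul_pred_le g' a' w
    (by rw [hco.gcd_eq_one]; exact one_dvd _) h4
  refine ⟨x, y, ?_⟩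
  conv_lhs => rw [hg', ha']
  rw [← hxy]
  ring

theorem lcm_add_gcd {g a : ℕ} (hg : 0 < g) (ha : 0 < a) : g + a ≤ Nat.lcm g a + Nat.gcd g a := by
  have hd : 0 < Nat.gcd g a := Nat.gcd_pos_of_pos_left _ hg
  obtain ⟨g', a', hco, hg', ha'⟩ : ∃ g' a', Nat.Coprime g' a' ∧ g = g' * Nat.gcd g a ∧
      a = a' * Nat.gcd g a := Nat.exists_coprime g a
  set D := Nat.gcd g a with hD
  have hg0 : 0 < g' := Nat.pos_of_ne_zero (by rintro rfl; omega)
  have ha0 : 0 < a' := Nat.pos_of_ne_zero (by rintro rfl; omega)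
  have hl : Nat.lcm g a = g' * a' * D := by
    have h1 := Nat.gcd_mul_lcm g a
    rw [← hD] at h1
    have h2 : D * Nat.lcm g a = D * (g' * a' * D) := by
      rw [h1]
      conv_lhs => rw [hg', ha']
      ring
    exact Nat.eq_of_mul_eq_mul_left hd h2
  rw [hl]
  have h3 : g' + a' ≤ g' * a' + 1 := by
    obtain ⟨s, rfl⟩ := Nat.exists_eq_succ_of_ne_zero hg0.ne'
    obtain ⟨t, rfl⟩ := Nat.exists_eq_succ_of_ne_zero ha0.ne'
    have : (s + 1) * (t + 1) = s * t + s + t + 1 := by ring
    simp only [Nat.succ_eq_add_one]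
    rw [this]
    nlinarith
  calc g + a = (g' + a') * D := by
        conv_lhs => rw [hg', ha']
        ring
    _ ≤ (g' * a' + 1) * D := Nat.mul_le_mul_right _ h3
    _ = g' * a' * D + D := by ring

/-- the greatest common divisor of `g` and the members of `l` -/
def gd : ℕ → List ℕ → ℕ
  | g, [] => g
  | g, a :: l => gd (Nat.gcd g a) l

theorem gd_dvd (l : List ℕ) : ∀ g, gd g l ∣ g := by
  induction l with
  | nil => intro g; exact dvd_rfl
  | cons a l ih => intro g; exact (ih _).trans (Nat.gcd_dvd_left _ _)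

theorem gd_dvd_mem (l : List ℕ) : ∀ g, ∀ x ∈ l, gd g l ∣ x := by
  induction l with
  | nil => intro g x hx; simp at hx
  | cons a l ih =>
    intro g x hx
    rcases List.mem_cons.1 hx with rfl | hx
    · show gd (Nat.gcd g x) l ∣ x
      exact (gd_dvd l _).trans (Nat.gcd_dvd_right _ _)
    · exact ih _ x hx

theorem bra_lower (l : List ℕ) : ∀ g, 0 < g → (∀ x ∈ l, 0 < x) →
    l.sum + g ≤ (bra g l).sum + gd g l := by
  induction l with
  | nil => intro g _ _; simp [bra, gd]
  | cons a l ih =>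
    intro g hg hl
    have ha : 0 < a := hl a (by simp)
    have h1 := ih (Nat.gcd g a) (Nat.gcd_pos_of_pos_left _ hg) fun x hx => hl x (by simp [hx])
    have h2 := lcm_add_gcd hg ha
    simp only [bra, gd, List.sum_cons]
    omega

/-- Brauer's bound -/
theorem brauer (l : List ℕ) : ∀ (g e : ℕ), 0 < g → (∀ x ∈ l, 0 < x) → gd g l ∣ e →
    (bra g l).sum < e + g + l.sum → e ∈ sg g l := by
  induction l with
  | nil =>
    intro g e hg _ h _
    simp only [gd] at h
    obtain ⟨w, rfl⟩ := h
    rw [mul_comm]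
    have : w • g ∈ sg g [] := AddSubmonoid.nsmul_mem _ (AddSubmonoid.subset_closure (by simp)) w
    simpa using this
  | cons a l ih =>
    intro g e hg hl he hb
    have ha : 0 < a := hl a (by simp)
    have hl' : ∀ x ∈ l, 0 < x := fun x hx => hl x (by simp [hx])
    have hd : 0 < Nat.gcd g a := Nat.gcd_pos_of_pos_left _ hg
    have h2 := lcm_add_gcd hg ha
    have h3 := bra_lower l (Nat.gcd g a) hd hl'
    simp only [bra, gd, List.sum_cons] at hb he
    set D := Nat.gcd g a with hD
    set T := Nat.lcm g a + D - g - a with hT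
    have hDT : D ∣ T := by
      refine Nat.dvd_sub (Nat.dvd_sub (Nat.dvd_add ((Nat.gcd_dvd_left g a).trans
        (Nat.dvd_lcm_left g a)) dvd_rfl) (Nat.gcd_dvd_left g a)) (Nat.gcd_dvd_right g a)
    have hGT : gd D l ∣ T := (gd_dvd l D).trans hDT
    have hG : 0 < gd D l := by
      rcases Nat.eq_zero_or_pos (gd D l) with h | h
      · have := gd_dvd l D
        rw [h, zero_dvd_iff] at this
        omega
      · exact h
    have hTe : T ≤ e := by
      by_contra hcon
      push Not at hcon
      obtain ⟨t', ht'⟩ := hGT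
      obtain ⟨e', he'⟩ := he
      have h5 : gd D l * (e' + 1) ≤ gd D l * t' := by
        apply Nat.mul_le_mul_left
        have : gd D l * e' < gd D l * t' := by omega
        have := Nat.lt_of_mul_lt_mul_left this
        omega
      have h6 : e + gd D l ≤ T := by
        rw [ht', he']
        calc gd D l * e' + gd D l = gd D l * (e' + 1) := by ring
          _ ≤ _ := h5
      omega
    have h4 := ih D (e - T) hd hl' (Nat.dvd_sub he hGT) (by omega)
    -- rewrite
    have key : ∀ y ∈ sg D l, T + y ∈ sg g (a :: l) := by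
      intro y hy
      have hsub : ∀ z ∈ AddSubmonoid.closure {x | x ∈ l}, z ∈ sg g (a :: l) := by
        intro z hz
        refine AddSubmonoid.closure_mono ?_ hz
        intro x hx
        have hx' : x ∈ l := hx
        simp [hx']
      unfold sg at hy
      rw [Set.insert_eq, AddSubmonoid.closure_union, AddSubmonoid.mem_sup] at hy
      obtain ⟨p, hp, q, hq, rfl⟩ := hy
      rw [AddSubmonoid.mem_closure_singleton] at hp
      obtain ⟨w, rfl⟩ := hp
      rw [← add_assoc]
      refine AddSubmonoid.add_mem _ ?_ (hsub q hq)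
      obtain ⟨x, y, hxy⟩ := two_gen (u := T + w • D) hg ha (Nat.dvd_add hDT (by
        rw [smul_eq_mul]; exact Dvd.intro_left _ rfl)) (by omega)
      rw [← hxy]
      refine AddSubmonoid.add_mem _ ?_ ?_
      · rw [← smul_eq_mul]
        exact AddSubmonoid.nsmul_mem _ (AddSubmonoid.subset_closure (by simp)) _
      · rw [← smul_eq_mul]
        exact AddSubmonoid.nsmul_mem _ (AddSubmonoid.subset_closure (by simp)) _
    have h5 := key _ h4
    rwa [Nat.add_sub_cancel' hTe] at h5

theorem pow_dvd_lcm {p k g a : ℕ} (hp : p.Prime) (h : p ^ k ∣ Nat.lcm g a) :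
    p ^ k ∣ g ∨ p ^ k ∣ a := by
  rcases Nat.eq_zero_or_pos g with rfl | hg
  · exact Or.inl (dvd_zero _)
  rcases Nat.eq_zero_or_pos a with rfl | ha
  · exact Or.inr (dvd_zero _)
  rw [hp.pow_dvd_iff_le_factorization (Nat.lcm_ne_zero hg.ne' ha.ne'),
    Nat.factorization_lcm hg.ne' ha.ne', Finsupp.sup_apply] at h
  rw [hp.pow_dvd_iff_le_factorization hg.ne', hp.pow_dvd_iff_le_factorization ha.ne']
  exact le_sup_iff.1 h

/-- For a prime power `h` the number of multiples of `h` does not grow. -/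
theorem count_bra {p k : ℕ} (hp : p.Prime) (l : List ℕ) : ∀ g,
    (bra g l).countP (fun b => p ^ k ∣ b) ≤ (g :: l).countP (fun b => p ^ k ∣ b) := by
  induction l with
  | nil => intro g; simp [bra]
  | cons a l ih =>
    intro g
    have h1 := ih (Nat.gcd g a)
    simp only [bra, List.countP_cons] at h1 ⊢
    have h2 : p ^ k ∣ Nat.lcm g a ↔ p ^ k ∣ g ∨ p ^ k ∣ a := by
      constructor
      · intro h
        exact pow_dvd_lcm hp h
      · rintro (h | h)
        · exact h.trans (Nat.dvd_lcm_left _ _)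
        · exact h.trans (Nat.dvd_lcm_right _ _)
    have h3 : p ^ k ∣ Nat.gcd g a ↔ p ^ k ∣ g ∧ p ^ k ∣ a := Nat.dvd_gcd_iff
    simp only [decide_eq_true_eq] at h1 ⊢
    by_cases hg : p ^ k ∣ g <;> by_cases ha : p ^ k ∣ a <;>
      simp only [h2, h3, hg, ha, true_or, or_true, or_self, and_self, and_true, true_and,
        if_true, if_false, and_false, false_and] at h1 ⊢ <;> omega

/-- the number of `t < L` with `L ∣ m t` -/
theorem card_mul_dvd {L m : ℕ} (hL : 0 < L) (hm : m ∣ L) :
    ((range L).filter fun t => L ∣ m * t).card = m := by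
  obtain ⟨n, rfl⟩ := hm
  have hm0 : 0 < m := Nat.pos_of_mul_pos_right hL
  have hn0 : 0 < n := Nat.pos_of_mul_pos_left hL
  have h1 : (range (m * n)).filter (fun t => m * n ∣ m * t) = (range m).image fun s => n * s := by
    ext t
    simp only [mem_filter, mem_range, mem_image]
    constructor
    · rintro ⟨h1, h2⟩
      have h3 : n ∣ t := Nat.dvd_of_mul_dvd_mul_left hm0 h2
      obtain ⟨s, rfl⟩ := h3
      refine ⟨s, ?_, rfl⟩
      rw [mul_comm m n] at h1
      exact Nat.lt_of_mul_lt_mul_left h1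
    · rintro ⟨s, hs, rfl⟩
      refine ⟨?_, ?_⟩
      · rw [mul_comm m n]
        exact Nat.mul_lt_mul_of_pos_left hs hn0
      · exact Nat.mul_dvd_mul_left _ (Dvd.intro _ rfl)
  rw [h1, card_image_of_injective _ fun a b h => Nat.eq_of_mul_eq_mul_left hn0 h, card_range]

/-- the same without `t = 0` -/
theorem card_mul_dvd' {L m : ℕ} (hL : 0 < L) (hm : m ∣ L) :
    ((range L).filter fun t => t ≠ 0 ∧ L ∣ m * t).card = m - 1 := by
  have h1 : (range L).filter (fun t => t ≠ 0 ∧ L ∣ m * t)
      = ((range L).filter fun t => L ∣ m * t).erase 0 := by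
    ext t
    simp only [mem_filter, mem_range, mem_erase]
    tauto
  rw [h1, card_erase_of_mem (by simp [hL]), card_mul_dvd hL hm]

end Pool.Agent.Y188
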