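import Pool.Agent.TH144.MB.Tan
import Pool.Agent.TH144.MB.Top

/-!
# Free adjoint systems on étale quotients by diagonal groups

Transfer lemmas: complete intersections and Cohen-Macaulay quotients have the bound `TopBound`, and
`TopBound` gives, in every degree at least the bound, semi-invariant forms of every character which
do not vanish at a given zero of the ideal.
-/

set_option autoImplicit false

namespace Pool.Agent.Y188

open MvPolynomial Pool.Agent.TH144.MB

/-- the linear form with coefficients `a` -/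
noncomputable def linForm {N : ℕ} (a : Fin (N + 1) → ℂ) : MvPolynomial (Fin (N + 1)) ℂ :=
  ∑ i, C (a i) * X i

theorem reg_ofFn {N : ℕ} (s : ℕ) : ∀ (a : Fin s → Fin (N + 1) → ℂ)
    (I : Ideal (MvPolynomial (Fin (N + 1)) ℂ)),
    (∀ i p, linForm (a i) * p ∈ I ⊔ Ideal.span ((fun j => linForm (a j)) '' {j | j < i}) →
      p ∈ I ⊔ Ideal.span ((fun j => linForm (a j)) '' {j | j < i})) →
    Reg I ((List.ofFn a).map lin) := by
  induction s with
  | zero => intro a I _; simp [Reg]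
  | succ s ih =>
    intro a I h
    rw [List.ofFn_succ, List.map_cons]
    refine ⟨?_, ih _ _ ?_⟩
    · have h0 := h 0
      have h1 : {j : Fin (s + 1) | j < 0} = ∅ := by
        ext j
        simp
      rw [h1, Set.image_empty, Ideal.span_empty, sup_bot_eq] at h0
      exact h0
    · intro i p
      have h0 := h i.succ p
      have h1 : {j : Fin (s + 1) | j < i.succ} = {0} ∪ Fin.succ '' {j | j < i} := by
        ext j
        refine Fin.cases ?_ (fun j => ?_) j
        · simp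
        · simp [Fin.succ_ne_zero]
      have h2 : I ⊔ Ideal.span ((fun j => linForm (a j)) '' {j | j < i.succ})
          = I ⊔ Ideal.span {lin (a 0)}
            ⊔ Ideal.span ((fun j => linForm (a (Fin.succ j))) '' {j | j < i}) := by
        rw [h1, Set.image_union, Set.image_singleton, Ideal.span_union, ← sup_assoc,
          Set.image_image]
        rfl
      rw [h2] at h0
      exact h0

theorem le_ext_ofFn {N : ℕ} (s : ℕ) (a : Fin s → Fin (N + 1) → ℂ)
    (I : Ideal (MvPolynomial (Fin (N + 1)) ℂ)) :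
    I ⊔ Ideal.span (Set.range fun j => linForm (a j)) ≤ ext I ((List.ofFn a).map lin) := by
  have h4 : ∀ (L : List (MvPolynomial (Fin (N + 1)) ℂ))
      (I : Ideal (MvPolynomial (Fin (N + 1)) ℂ)), ∀ f ∈ L, f ∈ ext I L := by
    intro L
    induction L with
    | nil => intro I f hf; simp at hf
    | cons g L ih =>
      intro I f hf
      rw [ext_cons]
      rcases List.mem_cons.1 hf with rfl | hf
      · exact Ideal.mem_sup_right (Ideal.mem_span_singleton_self f)
      · exact Ideal.mem_sup_left (ih I f hf)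
  refine sup_le (le_ext _ _) ?_
  rw [Ideal.span_le]
  rintro _ ⟨j, rfl⟩
  refine h4 _ _ _ (List.mem_map.2 ⟨a j, ?_, rfl⟩)
  rw [List.mem_ofFn]
  exact ⟨j, rfl⟩

/-- the bound for Cohen-Macaulay quotients -/
theorem topBound_of_cm {N n : ℕ} {κ : ℤ} {I : Ideal (MvPolynomial (Fin (N + 1)) ℂ)}
    (hom : ∀ p ∈ I, ∀ n, homogeneousComponent n p ∈ I)
    (a : Fin (n + 1) → Fin (N + 1) → ℂ)
    (ha : ∀ i p, linForm (a i) * p ∈ I ⊔ Ideal.span ((fun j => linForm (a j)) '' {j | j < i}) →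
      p ∈ I ⊔ Ideal.span ((fun j => linForm (a j)) '' {j | j < i}))
    (hb : ∀ t : ℕ, κ + n + 1 < t → ∀ p : MvPolynomial (Fin (N + 1)) ℂ, p.IsHomogeneous t →
      p ∈ I ⊔ Ideal.span (Set.range fun j => linForm (a j)))
    {y : Fin (N + 1) → ℂ} (hy : ∀ p ∈ I, eval y p = 0) :
    ∃ ρ : ℕ, TopBound I ρ ∧ (ρ : ℤ) = κ + n + 1 := by
  rcases lt_or_ge (κ + n + 1) 0 with h0 | h0
  · exfalso
    have h1 := hb 0 (by simpa using h0) 1 (isHomogeneous_one _ _)
    have h2 : I ⊔ Ideal.span (Set.range fun j => linForm (a j))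
        ≤ RingHom.ker (eval (fun i => (0 : ℂ) * y i)) := by
      refine sup_le (fun p hp => RingHom.mem_ker.2 (cone hom hy 0 p hp)) ?_
      rw [Ideal.span_le]
      rintro _ ⟨j, rfl⟩
      refine RingHom.mem_ker.2 ?_
      simp [linForm]
    have h3 := RingHom.mem_ker.1 (h2 h1)
    rw [map_one] at h3
    exact one_ne_zero h3
  · refine ⟨(κ + n + 1).toNat, ?_, by omega⟩
    refine topBound_cm hom (List.ofFn a) (reg_ofFn (n + 1) a I ha) ?_
    intro t ht p hp
    refine le_ext_ofFn (n + 1) a I (hb t ?_ p hp)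
    omega

/-- the bound for complete intersections -/
theorem topBound_of_ci {N n c : ℕ} {κ : ℤ} (f : Fin c → MvPolynomial (Fin (N + 1)) ℂ)
    (d : Fin c → ℕ) (hfd : ∀ j, (f j).IsHomogeneous (d j) ∧ 0 < d j) (hN : N = n + c)
    (hκ : κ = ∑ j, (d j : ℤ) - (N + 1)) :
    ∃ ρ : ℕ, TopBound (Ideal.span (Set.range f)) ρ ∧ (ρ : ℤ) = κ + n + 1 := by
  refine ⟨∑ j, (d j - 1), topBound_forms f d (fun j => (hfd j).1) fun j => (hfd j).2, ?_⟩
  have h1 : ((∑ j, (d j - 1) : ℕ) : ℤ) = ∑ j, (d j : ℤ) - c := by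
    rw [Nat.cast_sum]
    have h2 : ∀ j, ((d j - 1 : ℕ) : ℤ) = (d j : ℤ) - 1 := fun j => by
      have := (hfd j).2
      omega
    simp only [h2]
    rw [Finset.sum_sub_distrib]
    simp
  have h3 : (N : ℤ) = n + c := by exact_mod_cast hN
  rw [h1, hκ, h3]
  ring

/-- forms of every character which do not vanish at a given zero -/
theorem exists_form {G : Type} [Group G] [Finite G] {N : ℕ}
    {I : Ideal (MvPolynomial (Fin (N + 1)) ℂ)}
    (hom : ∀ p ∈ I, ∀ n, homogeneousComponent n p ∈ I)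
    (α : Fin (N + 1) → G →* ℂˣ)
    (stable : ∀ (g : G), ∀ p ∈ I, bind₁ (fun i => C (α i g : ℂ) * X i) p ∈ I)
    (free : ∀ v : Fin (N + 1) → ℂ, v ≠ 0 → (∀ p ∈ I, eval v p = 0) → ∀ (g : G) (μ : ℂ),
      (∀ i, (α i g : ℂ) * v i = μ * v i) → g = 1)
    {ρ e : ℕ} (hρ : TopBound I ρ) (he : ρ ≤ e) (χ : G →* ℂˣ)
    {y : Fin (N + 1) → ℂ} (hy0 : y ≠ 0) (hy : ∀ p ∈ I, eval y p = 0) :
    ∃ F : MvPolynomial (Fin (N + 1)) ℂ, (F.IsHomogeneous e ∧
      ∀ (g : G) (x : Fin (N + 1) → ℂ), eval (fun i => (α i g : ℂ) * x i) F = χ g * eval x F) ∧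
      eval y F ≠ 0 := by
  classical
  have _ := Fintype.ofFinite G
  have hst : ∀ v : Fin (N + 1) → ℂ, (∀ p ∈ I, eval v p = 0) → ∀ (g : G), ∀ p ∈ I,
      eval (mv α g v) p = 0 := by
    intro v hv g p hp
    rw [← eval_act]
    exact hv _ (stable g p hp)
  let S : Sit ℂ G (N + 1) := { I := I, hom := hom, α := α, stable := hst, free := free }
  obtain ⟨μ, h1, h2, h3⟩ := S.exists_mono hρ hy0 hy χ (t := e) he
  have h4 := typ_monomial h2
  rw [h1] at h4
  exact ⟨_, h4, by rw [eval_mono]; exact h3⟩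

end Pool.Agent.Y188
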