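import Pool.Agent.Y188.WNum
import Pool.Agent.H952R2.Sextic.CommonZero

/-!
# Weighted complete intersections with free scaling action
-/

set_option autoImplicit false

namespace Pool.Agent.Y188

open Finset MvPolynomial

section
variable {σ J : Type} [Fintype σ] [Fintype J] [DecidableEq σ]

/-- the equation `f j` has a monomial in the variables of `E` -/
def On (f : J → MvPolynomial σ ℂ) (E : Finset σ) (j : J) : Prop :=
  ∃ m ∈ (f j).support, m.support ⊆ E

theorem eval_off {f : J → MvPolynomial σ ℂ} {E : Finset σ} {j : J} (h : ¬ On f E j)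
    {v : σ → ℂ} (hv : ∀ i, i ∉ E → v i = 0) : eval v (f j) = 0 := by
  rw [eval_eq]
  refine sum_eq_zero fun m hm => ?_
  have h1 : ¬ m.support ⊆ E := fun h2 => h ⟨m, hm, h2⟩
  rw [Finset.not_subset] at h1
  obtain ⟨i, hi, hiE⟩ := h1
  rw [prod_eq_zero hi, mul_zero]
  rw [hv i hiE, zero_pow (Finsupp.mem_support_iff.1 hi)]

theorem hall {a : σ → ℕ} {d : J → ℕ} (hd : ∀ j, 0 < d j) {f : J → MvPolynomial σ ℂ}
    (hf : ∀ j, IsWeightedHomogeneous a (f j) (d j)) {E : Finset σ}
    (hE : ∀ v : σ → ℂ, (∀ i, i ∉ E → v i = 0) → (∀ j, eval v (f j) = 0) → v = 0) :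
    ∃ s : Finset J, (∀ j ∈ s, On f E j) ∧ E.card ≤ s.card := by
  classical
  refine ⟨univ.filter fun j => On f E j, by simp, ?_⟩
  by_contra hcon
  push Not at hcon
  let ι := {i // i ∈ E}
  let κ := {j // j ∈ univ.filter fun j => On f E j}
  let ext : (ι → ℂ) → (σ → ℂ) := fun q i => if h : i ∈ E then q ⟨i, h⟩ else 0
  let r : MvPolynomial σ ℂ →ₐ[ℂ] MvPolynomial ι ℂ :=
    aeval fun i => if h : i ∈ E then X ⟨i, h⟩ else 0
  have hr : ∀ (q : ι → ℂ) (p : MvPolynomial σ ℂ), eval q (r p) = eval (ext q) p := by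
    intro q p
    induction p using MvPolynomial.induction_on with
    | C c => simp [r]
    | add p q hp hq => simp only [map_add, hp, hq]
    | mul_X p i hp =>
      rw [map_mul, map_mul, map_mul, hp, eval_X]
      congr 1
      simp only [r, aeval_X, ext]
      split_ifs <;> simp
  have hz : ∀ j, eval 0 (f j) = 0 := by
    intro j
    rw [eval_zero, constantCoeff_eq]
    by_contra h0
    have := (hf j) h0
    simp at this
    have := hd j
    omega
  obtain ⟨q, hq0, hq⟩ := Pool.Agent.H952R2.Sextic.exists_common_zero (K := ℂ) (ι := ι) (κ := κ)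
    (by rw [Fintype.card_coe, Fintype.card_coe]; exact hcon) (fun j => r (f j)) (by
      intro j
      rw [hr]
      have : ext 0 = 0 := by
        funext i
        simp [ext]
      rw [this]
      exact hz j)
  have h1 := hE (ext q) (fun i hi => by simp [ext, hi]) (by
    intro j
    by_cases h : On f E j
    · rw [← hr]
      exact hq ⟨j, by simp [h]⟩
    · exact eval_off h fun i hi => by simp [ext, hi])
  apply hq0
  funext i
  have hi := congrFun h1 i.1
  simpa [ext, i.2] using hi

theorem deg_eq {a : σ → ℕ} {d : J → ℕ} {f : J → MvPolynomial σ ℂ}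
    (hf : ∀ j, IsWeightedHomogeneous a (f j) (d j)) {j : J} {m : σ →₀ ℕ}
    (hm : m ∈ (f j).support) : ∑ i, m i * a i = d j := by
  have h1 := (hf j) (MvPolynomial.mem_support_iff.1 hm)
  rw [Finsupp.weight_apply, Finsupp.sum_fintype _ _ (by simp)] at h1
  simpa using h1

theorem On.dvd {a : σ → ℕ} {d : J → ℕ} {f : J → MvPolynomial σ ℂ}
    (hf : ∀ j, IsWeightedHomogeneous a (f j) (d j)) {E : Finset σ} {j : J} (h : On f E j)
    {g : ℕ} (hg : ∀ i ∈ E, g ∣ a i) : g ∣ d j := by
  obtain ⟨m, hm, hmE⟩ := h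
  rw [← deg_eq hf hm]
  refine dvd_sum fun i _ => ?_
  by_cases hi : i ∈ m.support
  · exact (hg i (hmE hi)).mul_left _
  · rw [Finsupp.notMem_support_iff.1 hi, zero_mul]
    exact dvd_zero _

/-- the hypotheses on the complete intersection -/
structure Sys (a : σ → ℕ) (d : J → ℕ) (f : J → MvPolynomial σ ℂ) : Prop where
  ha : ∀ i, 0 < a i
  hd : ∀ j, 0 < d j
  hf : ∀ j, IsWeightedHomogeneous a (f j) (d j)
  free : ∀ v : σ → ℂ, v ≠ 0 → (∀ j, eval v (f j) = 0) → ∀ g : ℕ, (∀ i, v i ≠ 0 → g ∣ a i) → g = 1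

variable {a : σ → ℕ} {d : J → ℕ} {f : J → MvPolynomial σ ℂ}

theorem Sys.regular (S : Sys a d f) (h : ℕ) (hh : 1 < h) :
    (univ.filter fun i => h ∣ a i).card ≤ (univ.filter fun j => h ∣ d j).card := by
  classical
  obtain ⟨s, hs, hc⟩ := hall S.hd S.hf (E := univ.filter fun i => h ∣ a i) (by
    intro v hv hz
    by_contra hv0
    have h1 := S.free v hv0 hz h (by
      intro i hi
      by_contra hcon
      exact hi (hv i (by simp [hcon])))
    omega)
  refine hc.trans (card_le_card fun j hj => ?_)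
  rw [mem_filter]
  exact ⟨mem_univ _, (hs j hj).dvd S.hf fun i hi => (mem_filter.1 hi).2⟩

/-- a zero of minimal support -/
structure Min (f : J → MvPolynomial σ ℂ) (w : σ → ℂ) : Prop where
  ne : w ≠ 0
  zero : ∀ j, eval w (f j) = 0
  min : ∀ v : σ → ℂ, (∀ j, eval v (f j) = 0) → (∀ i, w i = 0 → v i = 0) →
    (∃ i, w i ≠ 0 ∧ v i = 0) → v = 0

theorem exists_min {y : σ → ℂ} (hy0 : y ≠ 0) (hy : ∀ j, eval y (f j) = 0) :
    ∃ w, Min f w ∧ ∀ i, y i = 0 → w i = 0 := by
  classical
  let P : ℕ → Prop := fun k => ∃ w : σ → ℂ, w ≠ 0 ∧ (∀ j, eval w (f j) = 0) ∧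
    (∀ i, y i = 0 → w i = 0) ∧ (Finset.univ.filter fun i => w i ≠ 0).card = k
  have hP : ∃ k, P k := ⟨_, y, hy0, hy, fun _ h => h, rfl⟩
  obtain ⟨w, hw0, hw, hwy, hwk⟩ := Nat.find_spec hP
  refine ⟨w, ⟨hw0, hw, ?_⟩, hwy⟩
  intro v hv hvw ⟨i, hi, hi2⟩
  by_contra hv0
  have h1 : Nat.find hP ≤ (Finset.univ.filter fun i => v i ≠ 0).card :=
    Nat.find_min' hP ⟨v, hv0, hv, fun i hi => hvw i (hwy i hi), rfl⟩
  rw [← hwk] at h1
  have h2 : (Finset.univ.filter fun i => v i ≠ 0).card
      < (Finset.univ.filter fun i => w i ≠ 0).card := by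
    apply Finset.card_lt_card
    rw [Finset.ssubset_iff_of_subset]
    · exact ⟨i, by simp [hi], by simp [hi2]⟩
    · intro i hi
      rw [Finset.mem_filter] at hi ⊢
      exact ⟨hi.1, fun h => hi.2 (hvw i h)⟩
  omega

theorem countP_map_eq (l : List σ) (hl : l.Nodup) (h : ℕ) :
    (l.map a).countP (fun b => h ∣ b) = (l.toFinset.filter fun i => h ∣ a i).card := by
  classical
  rw [List.countP_map]
  induction l with
  | nil => simp
  | cons x l ih =>
    rw [List.nodup_cons] at hl
    rw [List.countP_cons, ih hl.2, List.toFinset_cons, filter_insert]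
    by_cases hx : h ∣ a x
    · rw [if_pos hx, card_insert_of_notMem (by simp [hl.1])]
      simp [hx]
    · rw [if_neg hx]
      simp [hx]

/-- the conclusion from a termwise comparison for some ordering of the support -/
theorem Sys.of_count (S : Sys a d f) {w : σ → ℂ} (hw : Min f w) {x : σ} {r : List σ}
    (hnd : (x :: r).Nodup) (hl : ∀ i, i ∈ x :: r ↔ w i ≠ 0)
    (H : ∀ h : ℕ, 1 < h → (bra (a x) (r.map a)).countP (fun b => h ∣ b) +
      ((univ.filter fun i => w i = 0).filter fun i => h ∣ a i).card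
        ≤ (univ.filter fun j => h ∣ d j).card)
    {e : ℕ} (he : ∑ j, d j + Fintype.card σ ≤ e + ∑ i, a i + Fintype.card J) :
    e ∈ AddSubmonoid.closure (a '' {i | w i ≠ 0}) := by
  classical
  have hbpos : ∀ (l : List ℕ) (g : ℕ), 0 < g → (∀ x ∈ l, 0 < x) → ∀ b ∈ bra g l, 0 < b := by
    intro l
    induction l with
    | nil => intro g _ _ b hb; simp [bra] at hb
    | cons y l ih =>
      intro g hg hl b hb
      simp only [bra, List.mem_cons] at hb
      rcases hb with rfl | hb
      · exact Nat.lcm_pos hg (hl y (by simp))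
      · exact ih _ (Nat.gcd_pos_of_pos_left _ hg) (fun x hx => hl x (by simp [hx])) b hb
  have hlen : ∀ (l : List ℕ) (g : ℕ), (bra g l).length = l.length := by
    intro l
    induction l with
    | nil => intro g; rfl
    | cons y l ih => intro g; simp [bra, ih]
  have hrpos : ∀ y ∈ r.map a, 0 < y := by
    intro y hy
    obtain ⟨i, _, rfl⟩ := List.mem_map.1 hy
    exact S.ha i
  set B := bra (a x) (r.map a) with hB
  have h1 := compare a S.ha d S.hd B (hbpos _ _ (S.ha x) hrpos) (univ.filter fun i => w i = 0) H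
  -- rewrite the sums
  have h2 : (B.map fun b => b - 1).sum + B.length = B.sum := by
    have : ∀ B : List ℕ, (∀ b ∈ B, 0 < b) → (B.map fun b => b - 1).sum + B.length = B.sum := by
      intro B
      induction B with
      | nil => intro _; simp
      | cons b B ih =>
        intro hb
        have h3 := ih fun x hx => hb x (by simp [hx])
        have h4 := hb b (by simp)
        simp only [List.map_cons, List.sum_cons, List.length_cons]
        omega
    exact this B (hbpos _ _ (S.ha x) hrpos)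
  have h3 : ∀ {ι : Type} (s : Finset ι) (m : ι → ℕ), (∀ i ∈ s, 0 < m i) →
      ∑ i ∈ s, (m i - 1) + s.card = ∑ i ∈ s, m i := by
    intro ι s m hm
    rw [card_eq_sum_ones, ← sum_add_distrib]
    exact sum_congr rfl fun i hi => by have := hm i hi; omega
  have h4 := h3 (univ.filter fun i => w i = 0) a fun i _ => S.ha i
  have h5 := h3 univ d fun j _ => S.hd j
  rw [card_univ] at h5
  have hfs : (x :: r).toFinset = univ.filter fun i => ¬ w i = 0 := by
    ext i
    rw [List.mem_toFinset, hl]
    simp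
  have h6 : ((univ : Finset σ).filter fun i => ¬ w i = 0).card = r.length + 1 := by
    rw [← hfs, List.toFinset_card_of_nodup hnd, List.length_cons]
  have h7 : (univ.filter fun i => w i = 0).card + ((univ : Finset σ).filter fun i => ¬ w i = 0).card
      = Fintype.card σ := by
    rw [card_filter_add_card_filter_not, card_univ]
  have h8 : ∑ i ∈ univ.filter (fun i => w i = 0), a i + ∑ i ∈ univ.filter (fun i => ¬ w i = 0), a i
      = ∑ i, a i := sum_filter_add_sum_filter_not _ _ _
  have h9 : ∑ i ∈ univ.filter (fun i => ¬ w i = 0), a i = a x + (r.map a).sum := by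
    rw [← hfs, List.sum_toFinset _ hnd, List.map_cons, List.sum_cons]
  have h10 := hlen (r.map a) (a x)
  rw [← hB, List.length_map] at h10
  have hgd : gd (a x) (r.map a) = 1 := by
    refine S.free w hw.ne hw.zero _ fun i hi => ?_
    rcases List.mem_cons.1 ((hl i).2 hi) with rfl | h
    · exact gd_dvd _ _
    · exact gd_dvd_mem _ _ _ (List.mem_map_of_mem h)
  have h11 := brauer (r.map a) (a x) e (S.ha x) hrpos (by rw [hgd]; exact one_dvd _) (by
    rw [← hB]
    omega)
  refine AddSubmonoid.closure_mono ?_ h11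
  intro y hy
  rcases hy with rfl | hy
  · exact ⟨x, (hl x).1 (by simp), rfl⟩
  · obtain ⟨i, hi, rfl⟩ := List.mem_map.1 hy
    exact ⟨i, (hl i).1 (by simp [hi]), rfl⟩

theorem pp {x y : ℕ} (h : ¬ x ∣ y) : ∃ p k : ℕ, p.Prime ∧ p ^ k ∣ x ∧ ¬ p ^ k ∣ y := by
  rw [Nat.dvd_iff_prime_pow_dvd_dvd] at h
  push Not at h
  obtain ⟨p, k, h1, h2, h3⟩ := h
  exact ⟨p, k, h1, h2, h3⟩

/-- the count for a divisor `h` of a prime power -/
theorem Sys.count_pow (S : Sys a d f) {w : σ → ℂ} {x : σ} {r : List σ}
    (hnd : (x :: r).Nodup) (hl : ∀ i, i ∈ x :: r ↔ w i ≠ 0) {h p k : ℕ} (hp : p.Prime)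
    (hk : p ^ k ∣ h) (hk1 : 1 < p ^ k) :
    (bra (a x) (r.map a)).countP (fun b => h ∣ b) +
      ((univ.filter fun i => w i = 0).filter fun i => h ∣ a i).card
        ≤ (univ.filter fun j => p ^ k ∣ d j).card := by
  classical
  have h1 : (bra (a x) (r.map a)).countP (fun b => h ∣ b)
      ≤ (bra (a x) (r.map a)).countP (fun b => p ^ k ∣ b) := by
    refine List.countP_mono_left fun b _ hb => ?_
    simp only [decide_eq_true_eq] at hb ⊢
    exact hk.trans hb
  have h2 := count_bra hp (k := k) (r.map a) (a x)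
  have h3 := countP_map_eq (a := a) (x :: r) hnd (p ^ k)
  rw [List.map_cons] at h3
  have hfs : (x :: r).toFinset = univ.filter fun i => ¬ w i = 0 := by
    ext i
    rw [List.mem_toFinset, hl]
    simp
  rw [hfs] at h3
  have h4 : ((univ.filter fun i => w i = 0).filter fun i => h ∣ a i).card
      ≤ ((univ.filter fun i => w i = 0).filter fun i => p ^ k ∣ a i).card := by
    refine card_le_card fun i hi => ?_
    rw [mem_filter] at hi ⊢
    exact ⟨hi.1, hk.trans hi.2⟩
  have h5 : ((univ.filter fun i => ¬ w i = 0).filter fun i => p ^ k ∣ a i).card +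
      ((univ.filter fun i => w i = 0).filter fun i => p ^ k ∣ a i).card
      = (univ.filter fun i => p ^ k ∣ a i).card := by
    rw [filter_filter, filter_filter, ← card_filter_add_card_filter_not (fun i => ¬ w i = 0)
      (s := univ.filter fun i => p ^ k ∣ a i), filter_filter, filter_filter]
    congr 2
    · ext i; simp [and_comm]
    · ext i; simp [and_comm]
  have h6 := S.regular _ hk1
  omega

/-- degrees forming a chain for divisibility -/
theorem Sys.chain (S : Sys a d f) (hC : ∀ j k, d j ∣ d k ∨ d k ∣ d j) {w : σ → ℂ} (hw : Min f w)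
    {e : ℕ} (he : ∑ j, d j + Fintype.card σ ≤ e + ∑ i, a i + Fintype.card J) :
    e ∈ AddSubmonoid.closure (a '' {i | w i ≠ 0}) := by
  classical
  obtain ⟨l, hl1, hl2⟩ : ∃ l : List σ, l.Nodup ∧ ∀ i, i ∈ l ↔ w i ≠ 0 :=
    ⟨(univ.filter fun i => w i ≠ 0).toList, nodup_toList _, by simp⟩
  rcases l with _ | ⟨x, r⟩
  · exfalso
    apply hw.ne
    funext i
    by_contra hi
    have := (hl2 i).2 hi
    simp at this
  refine S.of_count hw hl1 hl2 ?_ he
  intro h hh
  -- a prime power
  obtain ⟨p, k, hp, hk, hk1, hk2⟩ : ∃ p k : ℕ, p.Prime ∧ p ^ k ∣ h ∧ 1 < p ^ k ∧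
      ∀ j, p ^ k ∣ d j → h ∣ d j := by
    by_cases hall : ∀ j, h ∣ d j
    · exact ⟨h.minFac, 1, Nat.minFac_prime (by omega), by simpa using Nat.minFac_dvd h,
        by simpa using (Nat.minFac_prime (by omega)).one_lt, fun j _ => hall j⟩
    · push Not at hall
      obtain ⟨j0, hj0, hmax⟩ := exists_max_image (univ.filter fun j => ¬ h ∣ d j) d (by
        obtain ⟨j, hj⟩ := hall
        exact ⟨j, by simp [hj]⟩)
      rw [mem_filter] at hj0
      obtain ⟨p, k, hp, h1, h2⟩ := pp hj0.2
      have hk0 : k ≠ 0 := by rintro rfl; simp at h2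
      refine ⟨p, k, hp, h1, Nat.one_lt_pow hk0 hp.one_lt, fun j hj => ?_⟩
      by_contra hcon
      have h3 := hmax j (by simp [hcon])
      apply h2
      rcases hC j j0 with h4 | h4
      · exact hj.trans h4
      · have h5 := Nat.le_of_dvd (S.hd j) h4
        have h6 : d j = d j0 := le_antisymm h3 h5
        rw [← h6]
        exact hj
  refine (S.count_pow hl1 hl2 hp hk hk1).trans (card_le_card fun j hj => ?_)
  rw [mem_filter] at hj ⊢
  exact ⟨hj.1, hk2 j hj.2⟩

/-- two equations and an ordering for which all numbers `b_l` divide some degree -/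
theorem Sys.two_of_dvd (S : Sys a d f) (hJ : Fintype.card J = 2) {w : σ → ℂ} (hw : Min f w)
    {x : σ} {r : List σ} (hnd : (x :: r).Nodup) (hl : ∀ i, i ∈ x :: r ↔ w i ≠ 0)
    (hB : ∀ b ∈ bra (a x) (r.map a), ∃ j, b ∣ d j)
    {e : ℕ} (he : ∑ j, d j + Fintype.card σ ≤ e + ∑ i, a i + Fintype.card J) :
    e ∈ AddSubmonoid.closure (a '' {i | w i ≠ 0}) := by
  classical
  refine S.of_count hw hnd hl ?_ he
  intro h hh
  by_cases hall : ∀ j, h ∣ d j
  · have h1 := S.count_pow (w := w) hnd hl (h := h) (Nat.minFac_prime (n := h) (by omega)) (k := 1)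
      (by simpa using Nat.minFac_dvd h) (by simpa using (Nat.minFac_prime (n := h) (by omega)).one_lt)
    refine h1.trans (card_le_card fun j _ => ?_)
    simp [hall j]
  · push Not at hall
    obtain ⟨j0, hj0⟩ := hall
    obtain ⟨p, k, hp, h1, h2⟩ := pp hj0
    have hk0 : k ≠ 0 := by rintro rfl; simp at h2
    have h3 := S.count_pow (w := w) hnd hl (h := h) hp h1 (Nat.one_lt_pow hk0 hp.one_lt)
    have h4 : (univ.filter fun j => p ^ k ∣ d j).card ≤ 1 := by
      have : (univ.filter fun j => p ^ k ∣ d j) ⊆ (univ : Finset J).erase j0 := by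
        intro j hj'
        simp only [mem_filter, mem_univ, true_and, mem_erase, and_true] at hj' ⊢
        rintro rfl
        exact h2 hj'
      have h6 := card_le_card this
      rw [card_erase_of_mem (mem_univ _), card_univ, hJ] at h6
      exact h6
    by_cases h5 : ∃ j, h ∣ d j
    · obtain ⟨j, hj⟩ := h5
      refine (h3.trans h4).trans (card_pos.2 ⟨j, by simp [hj]⟩)
    · push Not at h5
      have h6 : (bra (a x) (r.map a)).countP (fun b => h ∣ b) = 0 := by
        rw [List.countP_eq_zero]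
        intro b hb
        simp only [decide_eq_true_eq]
        intro hhb
        obtain ⟨j, hj⟩ := hB b hb
        exact h5 j (hhb.trans hj)
      rw [h6, zero_add]
      refine le_trans (card_le_card ?_) (S.regular h hh)
      intro i hi
      rw [mem_filter] at hi
      simp [hi.2]

end

end Pool.Agent.Y188
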