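import Pool.Agent.Y188.WCI

/-!
# Two equations
-/

set_option autoImplicit false

namespace Pool.Agent.Y188

open Finset MvPolynomial

section
variable {σ J : Type} [Fintype σ] [Fintype J] [DecidableEq σ]
variable {a : σ → ℕ} {d : J → ℕ} {f : J → MvPolynomial σ ℂ}

theorem Sys.hall_min (S : Sys a d f) {w : σ → ℂ} (hw : Min f w) {E : Finset σ}
    (hE : ∀ i ∈ E, w i ≠ 0) {i₀ : σ} (hi : w i₀ ≠ 0) (hiE : i₀ ∉ E) :
    ∃ s : Finset J, (∀ j ∈ s, On f E j) ∧ E.card ≤ s.card :=
  hall S.hd S.hf fun v hv hz => hw.min v hz (fun i hi' => hv i fun h => hE i h hi')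
    ⟨i₀, hi, hv i₀ hiE⟩

theorem Sys.on_one (S : Sys a d f) {w : σ → ℂ} (hw : Min f w) {x y : σ} (hxy : x ≠ y)
    (hx : w x ≠ 0) (hy : w y ≠ 0) : ∃ j, On f {x} j := by
  obtain ⟨s, hs, hc⟩ := S.hall_min hw (E := {x}) (by simpa using hx) hy (by
    rw [Finset.mem_singleton]
    exact fun h => hxy h.symm)
  rw [card_singleton] at hc
  obtain ⟨j, hj⟩ := card_pos.1 hc
  exact ⟨j, hs j hj⟩

theorem Sys.on_two (S : Sys a d f) (hJ : Fintype.card J = 2) {w : σ → ℂ} (hw : Min f w)
    {x y z : σ} (hxy : x ≠ y) (hxz : x ≠ z) (hyz : y ≠ z)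
    (hx : w x ≠ 0) (hy : w y ≠ 0) (hz : w z ≠ 0) (j : J) : On f {x, y} j := by
  obtain ⟨s, hs, hc⟩ := S.hall_min hw (E := {x, y}) (by
    intro i hi
    rw [Finset.mem_insert, Finset.mem_singleton] at hi
    rcases hi with rfl | rfl
    · exact hx
    · exact hy) hz (by
    rw [Finset.mem_insert, Finset.mem_singleton]
    rintro (h | h)
    · exact hxz h.symm
    · exact hyz h.symm)
  rw [card_pair hxy, ← hJ] at hc
  have h1 : s = univ := (card_eq_iff_eq_univ s).1 (le_antisymm (card_le_univ s) hc)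
  exact hs j (h1 ▸ mem_univ j)

theorem On.mono {E E' : Finset σ} (h : E ⊆ E') {j : J} (hj : On f E j) : On f E' j := by
  obtain ⟨m, hm, hmE⟩ := hj
  exact ⟨m, hm, hmE.trans h⟩

/-- A curve-type estimate: `f j` contains a power of `x`, it vanishes at a point with support
`{x, y}`, and `a y` does not divide its degree. -/
theorem Sys.low (S : Sys a d f) {w : σ → ℂ} (hw : ∀ j, eval w (f j) = 0) {x y : σ} (hxy : x ≠ y)
    (hx : w x ≠ 0) (hsupp : ∀ i, w i ≠ 0 → i = x ∨ i = y) (hco : Nat.Coprime (a x) (a y))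
    {j : J} (hj : On f {x} j) (hyj : ¬ a y ∣ d j) : a x * a y + a x ≤ d j := by
  classical
  obtain ⟨m, hm, hmE⟩ := hj
  -- a second monomial
  obtain ⟨m', hm', hne, hm'E⟩ : ∃ m' ∈ (f j).support, m' ≠ m ∧ m'.support ⊆ {x, y} := by
    by_contra hcon
    push Not at hcon
    have h1 := hw j
    rw [eval_eq, sum_eq_single m] at h1
    · have h2 : coeff m (f j) ≠ 0 := MvPolynomial.mem_support_iff.1 hm
      rcases mul_eq_zero.1 h1 with h3 | h3
      · exact h2 h3
      · obtain ⟨i, hi, hi0⟩ := prod_eq_zero_iff.1 h3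
        have h4 := hmE hi
        rw [Finset.mem_singleton] at h4
        subst h4
        exact hx (eq_zero_of_pow_eq_zero hi0)
    · intro b hb hbm
      have h2 := hcon b hb hbm
      rw [Finset.not_subset] at h2
      obtain ⟨i, hi, hiE⟩ := h2
      rw [prod_eq_zero hi, mul_zero]
      have h3 : w i = 0 := by
        by_contra h4
        apply hiE
        rw [Finset.mem_insert, Finset.mem_singleton]
        exact hsupp i h4
      rw [h3, zero_pow (Finsupp.mem_support_iff.1 hi)]
    · intro h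
      exact absurd hm h
  have hd1 := deg_eq S.hf hm
  have hd2 := deg_eq S.hf hm'
  have hs1 : ∑ i, m i * a i = m x * a x := by
    rw [sum_eq_single x]
    · intro b _ hb
      have : b ∉ m.support := fun h => hb (by simpa using hmE h)
      rw [Finsupp.notMem_support_iff.1 this, zero_mul]
    · intro h
      exact absurd (mem_univ x) h
  have hs2 : ∑ i, m' i * a i = m' x * a x + m' y * a y := by
    rw [← sum_subset (subset_univ ({x, y} : Finset σ)), sum_pair hxy]
    intro b _ hb
    have : b ∉ m'.support := fun h => hb (hm'E h)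
    rw [Finsupp.notMem_support_iff.1 this, zero_mul]
  rw [hs1] at hd1
  rw [hs2] at hd2
  have hy0 : m' y ≠ 0 := by
    intro h0
    apply hne
    rw [h0, zero_mul, add_zero, ← hd1] at hd2
    have h5 : m' x = m x := Nat.eq_of_mul_eq_mul_right (S.ha x) hd2
    ext i
    by_cases hix : i = x
    · rw [hix, h5]
    · have h6 : m i = 0 := by
        by_contra h7
        exact hix (by simpa using hmE (Finsupp.mem_support_iff.2 h7))
      rw [h6]
      by_contra h7
      have h8 := hm'E (Finsupp.mem_support_iff.2 h7)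
      rw [Finset.mem_insert, Finset.mem_singleton] at h8
      rcases h8 with h8 | h8
      · exact hix h8
      · rw [h8] at h7
        exact h7 h0
  have hx0 : m' x ≠ 0 := by
    intro h0
    apply hyj
    rw [← hd2, h0, zero_mul, zero_add]
    exact dvd_mul_left _ _
  have hdv : a x ∣ m' y := by
    have h1 : a x ∣ m' y * a y := by
      rw [← Nat.dvd_add_right (dvd_mul_left (a x) (m' x)), hd2, ← hd1]
      exact dvd_mul_left _ _
    exact hco.dvd_of_dvd_mul_right h1
  have h1 : a x ≤ m' y := Nat.le_of_dvd (Nat.pos_of_ne_zero hy0) hdv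
  have h2 : a x * a y ≤ m' y * a y := Nat.mul_le_mul_right _ h1
  have h3 : 1 * a x ≤ m' x * a x := Nat.mul_le_mul_right _ (Nat.pos_of_ne_zero hx0)
  omega

theorem sum_add_card {ι : Type} [Fintype ι] (m : ι → ℕ) (hm : ∀ i, 0 < m i) :
    ∑ i, (m i - 1) + Fintype.card ι = ∑ i, m i := by
  rw [← card_univ, card_eq_sum_ones, ← sum_add_distrib]
  exact sum_congr rfl fun i _ => by have := hm i; omega

/-- two equations: the conclusion for zeros of minimal support -/
theorem Sys.two (S : Sys a d f) (hJ : Fintype.card J = 2) {w : σ → ℂ} (hw : Min f w)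
    {e : ℕ} (he : ∑ j, d j + Fintype.card σ ≤ e + ∑ i, a i + Fintype.card J) :
    e ∈ AddSubmonoid.closure (a '' {i | w i ≠ 0}) := by
  classical
  obtain ⟨l, hl1, hl2⟩ : ∃ l : List σ, l.Nodup ∧ ∀ i, i ∈ l ↔ w i ≠ 0 :=
    ⟨(univ.filter fun i => w i ≠ 0).toList, nodup_toList _, by simp⟩
  rcases l with _ | ⟨x, _ | ⟨y, _ | ⟨z, _ | ⟨t, r⟩⟩⟩⟩
  · exfalso
    apply hw.ne
    funext i
    by_contra hi
    have := (hl2 i).2 hi
    simp at this
  · exact S.two_of_dvd hJ hw hl1 hl2 (by simp [bra]) he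
  · -- support `{x, y}`
    have hxy : x ≠ y := by
      simp at hl1
      exact hl1
    have hx : w x ≠ 0 := (hl2 x).1 (by simp)
    have hy : w y ≠ 0 := (hl2 y).1 (by simp)
    obtain ⟨jx, hjx⟩ := S.on_one hw hxy hx hy
    obtain ⟨jy, hjy⟩ := S.on_one hw hxy.symm hy hx
    have hdx : a x ∣ d jx := hjx.dvd S.hf (by simp)
    have hdy : a y ∣ d jy := hjy.dvd S.hf (by simp)
    by_cases hboth : ∃ j, a x ∣ d j ∧ a y ∣ d j
    · refine S.two_of_dvd hJ hw hl1 hl2 ?_ he
      intro b hb
      simp only [bra, List.map_cons, List.map_nil, List.mem_singleton] at hb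
      obtain ⟨j, h1, h2⟩ := hboth
      exact ⟨j, hb ▸ Nat.lcm_dvd h1 h2⟩
    · push Not at hboth
      have h10 : ¬ a y ∣ d jx := hboth jx hdx
      have h01 : ¬ a x ∣ d jy := fun h => hboth jy h hdy
      have hsupp : ∀ i, w i ≠ 0 → i = x ∨ i = y := by
        intro i hi
        have := (hl2 i).2 hi
        simpa using this
      have hco : Nat.Coprime (a x) (a y) := by
        refine S.free w hw.ne hw.zero _ fun i hi => ?_
        rcases hsupp i hi with rfl | rfl
        · exact Nat.gcd_dvd_left _ _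
        · exact Nat.gcd_dvd_right _ _
      have hlow0 := S.low hw.zero hxy hx hsupp hco hjx h10
      have hlow1 := S.low hw.zero hxy.symm hy (fun i hi => (hsupp i hi).symm) hco.symm hjy h01
      rw [mul_comm (a y) (a x)] at hlow1
      have h1 := two_case a S.ha d S.hd hJ S.regular hdx h01 hdy h10 hlow0 hlow1
      have h2 := sum_add_card a S.ha
      have h3 := sum_add_card d S.hd
      have h4 : (a x).pred * (a y).pred ≤ e := by
        have hax := S.ha x
        have hay := S.ha y
        obtain ⟨u, hu⟩ := Nat.exists_eq_succ_of_ne_zero hax.ne'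
        obtain ⟨v, hv⟩ := Nat.exists_eq_succ_of_ne_zero hay.ne'
        have h6 : a x = u + 1 := hu
        have h7 : a y = v + 1 := hv
        have h5 : (u + 1) * (v + 1) = u * v + u + v + 1 := by ring
        rw [hu, hv, Nat.pred_succ, Nat.pred_succ]
        rw [h6, h7] at h1
        omega
      obtain ⟨p, q, hpq⟩ := Nat.exists_add_mul_eq_of_gcd_dvd_of_mul_pred_le (a x) (a y) e
        (by rw [hco.gcd_eq_one]; exact one_dvd _) h4
      rw [← hpq]
      refine AddSubmonoid.add_mem _ ?_ ?_
      · rw [← smul_eq_mul]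
        exact AddSubmonoid.nsmul_mem _ (AddSubmonoid.subset_closure (Set.mem_image_of_mem a hx)) _
      · rw [← smul_eq_mul]
        exact AddSubmonoid.nsmul_mem _ (AddSubmonoid.subset_closure (Set.mem_image_of_mem a hy)) _
  · -- support `{x, y, z}`
    have hne : x ≠ y ∧ x ≠ z ∧ y ≠ z := by
      simp at hl1
      tauto
    obtain ⟨hxy, hxz, hyz⟩ := hne
    have hx : w x ≠ 0 := (hl2 x).1 (by simp)
    have hy : w y ≠ 0 := (hl2 y).1 (by simp)
    have hz : w z ≠ 0 := (hl2 z).1 (by simp)
    obtain ⟨jx, hjx⟩ := S.on_one hw hxy hx hy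
    obtain ⟨jy, hjy⟩ := S.on_one hw hxy.symm hy hx
    obtain ⟨jz, hjz⟩ := S.on_one hw hxz.symm hz hx
    have hdx : a x ∣ d jx := hjx.dvd S.hf (by simp)
    have hdy : a y ∣ d jy := hjy.dvd S.hf (by simp)
    have hdz : a z ∣ d jz := hjz.dvd S.hf (by simp)
    -- the three cases
    have main : ∀ {x y z : σ}, (x :: [y, z]).Nodup → (∀ i, i ∈ x :: [y, z] ↔ w i ≠ 0) →
        ∀ {j jz : J}, a x ∣ d j → a y ∣ d j → a z ∣ d jz →
        e ∈ AddSubmonoid.closure (a '' {i | w i ≠ 0}) := by
      intro x y z hnd hl j jz h1 h2 h3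
      have hne : x ≠ y ∧ x ≠ z ∧ y ≠ z := by
        simp at hnd
        tauto
      have hx : w x ≠ 0 := (hl x).1 (by simp)
      have hy : w y ≠ 0 := (hl y).1 (by simp)
      have hz : w z ≠ 0 := (hl z).1 (by simp)
      refine S.two_of_dvd hJ hw hnd hl ?_ he
      intro b hb
      simp only [bra, List.map_cons, List.map_nil, List.mem_cons, List.not_mem_nil, or_false] at hb
      rcases hb with rfl | rfl
      · exact ⟨j, Nat.lcm_dvd h1 h2⟩
      · refine ⟨jz, Nat.lcm_dvd ?_ h3⟩
        refine (S.on_two hJ hw hne.1 hne.2.1 hne.2.2 hx hy hz jz).dvd S.hf ?_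
        intro i hi
        rw [Finset.mem_insert, Finset.mem_singleton] at hi
        rcases hi with rfl | rfl
        · exact Nat.gcd_dvd_left _ _
        · exact Nat.gcd_dvd_right _ _
    have hpig : jx = jy ∨ jx = jz ∨ jy = jz := by
      by_contra hcon
      push Not at hcon
      have h1 : ({jx, jy, jz} : Finset J).card = 3 := by
        rw [card_insert_of_notMem, card_pair hcon.2.2]
        rw [Finset.mem_insert, Finset.mem_singleton]
        rintro (h | h)
        · exact hcon.1 h
        · exact hcon.2.1 h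
      have h2 := card_le_univ ({jx, jy, jz} : Finset J)
      omega
    rcases hpig with h | h | h
    · exact main hl1 hl2 hdx (h ▸ hdy) hdz
    · refine main (x := x) (y := z) (z := y) ?_ ?_ hdx (h ▸ hdz) hdy
      · simp [hxz, hxy, hyz.symm]
      · intro i
        rw [← hl2]
        simp only [List.mem_cons, List.not_mem_nil, or_false]
        tauto
    · refine main (x := y) (y := z) (z := x) ?_ ?_ hdy (h ▸ hdz) hdx
      · simp [hyz, hxy.symm, hxz.symm]
      · intro i
        rw [← hl2]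
        simp only [List.mem_cons, List.not_mem_nil, or_false]
        tauto
  · -- at least four
    exfalso
    have hnd := hl1
    simp only [List.nodup_cons, List.mem_cons, not_or] at hnd
    obtain ⟨⟨hxy, hxz, hxt, hxr⟩, ⟨hyz, hyt, hyr⟩, ⟨hzt, hzr⟩, _⟩ := hnd
    obtain ⟨s, _, hc⟩ := S.hall_min hw (E := {x, y, z}) (by
      intro i hi
      simp only [Finset.mem_insert, Finset.mem_singleton] at hi
      rcases hi with rfl | rfl | rfl
      · exact (hl2 _).1 (by simp)
      · exact (hl2 _).1 (by simp)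
      · exact (hl2 _).1 (by simp)) (i₀ := t) ((hl2 t).1 (by simp)) (by
      simp only [Finset.mem_insert, Finset.mem_singleton, not_or]
      exact ⟨fun h => hxt h.symm, fun h => hyt h.symm, fun h => hzt h.symm⟩)
    have h1 : ({x, y, z} : Finset σ).card = 3 := by
      rw [card_insert_of_notMem, card_pair hyz]
      simp only [Finset.mem_insert, Finset.mem_singleton, not_or]
      exact ⟨hxy, hxz⟩
    have h2 := card_le_univ s
    omega

/-- forms not vanishing at a zero `y` -/
theorem form_of_mem {y : σ → ℂ} {w : σ → ℂ} (hwy : ∀ i, y i = 0 → w i = 0) {e : ℕ}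
    (he : e ∈ AddSubmonoid.closure (a '' {i | w i ≠ 0})) :
    ∃ s : MvPolynomial σ ℂ, IsWeightedHomogeneous a s e ∧ eval y s ≠ 0 := by
  induction he using AddSubmonoid.closure_induction with
  | mem u hu =>
    obtain ⟨i, hi, rfl⟩ := hu
    refine ⟨X i, isWeightedHomogeneous_X ℂ a i, ?_⟩
    rw [eval_X]
    exact fun h => hi (hwy i h)
  | zero => exact ⟨1, isWeightedHomogeneous_one ℂ a, by simp⟩
  | add u v _ _ hu hv =>
    obtain ⟨s, hs, hs'⟩ := hu
    obtain ⟨t, ht, ht'⟩ := hv
    exact ⟨s * t, hs.mul ht, by rw [map_mul]; exact mul_ne_zero hs' ht'⟩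

theorem Sys.main (S : Sys a d f) (h : (∀ j k, d j ∣ d k ∨ d k ∣ d j) ∨ Fintype.card J = 2)
    {y : σ → ℂ} (hy0 : y ≠ 0) (hy : ∀ j, eval y (f j) = 0)
    {e : ℕ} (he : ∑ j, d j + Fintype.card σ ≤ e + ∑ i, a i + Fintype.card J) :
    ∃ s : MvPolynomial σ ℂ, IsWeightedHomogeneous a s e ∧ eval y s ≠ 0 := by
  obtain ⟨w, hw, hwy⟩ := exists_min hy0 hy
  refine form_of_mem hwy ?_
  rcases h with h | h
  · exact S.chain h hw he
  · exact S.two h hw he

end

end Pool.Agent.Y188
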