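import Pool.Agent.Y188.Brauer

/-!
# Comparing sums by counting multiples
-/

set_option autoImplicit false

namespace Pool.Agent.Y188

open Finset

/-- the nonzero residues modulo `L` -/
def nz (L : ℕ) : Finset ℕ := (range L).filter fun t => t ≠ 0

theorem card_nz {L m : ℕ} (hL : 0 < L) (hm : m ∣ L) :
    ((nz L).filter fun t => L ∣ m * t).card = m - 1 := by
  rw [← card_mul_dvd' hL hm, nz, filter_filter]

/-- the order of `t` modulo `L` -/
def od (L t : ℕ) : ℕ := L / Nat.gcd L t

theorem od_dvd_iff {L t m : ℕ} (hL : 0 < L) : od L t ∣ m ↔ L ∣ m * t := by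
  have hg : 0 < Nat.gcd L t := Nat.gcd_pos_of_pos_left _ hL
  obtain ⟨l', t', hco, hl', ht'⟩ : ∃ l' t', Nat.Coprime l' t' ∧ L = l' * Nat.gcd L t ∧
      t = t' * Nat.gcd L t := Nat.exists_coprime L t
  have h1 : od L t = l' := by
    unfold od
    exact Nat.div_eq_of_eq_mul_left hg hl'
  rw [h1]
  set g := Nat.gcd L t with hgd
  constructor
  · rintro ⟨w, rfl⟩
    rw [hl', ht']
    exact ⟨w * t', by ring⟩
  · intro h
    rw [hl', ht', ← mul_assoc] at h
    exact hco.dvd_of_dvd_mul_right (Nat.dvd_of_mul_dvd_mul_right hg h)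

theorem one_lt_od {L t : ℕ} (ht : t ∈ nz L) : 1 < od L t := by
  simp only [nz, mem_filter, mem_range] at ht
  have hL : 0 < L := by omega
  have h1 : od L t ≠ 0 := by
    intro h
    have h2 := (od_dvd_iff (t := t) (m := L) hL).2 (Dvd.intro _ rfl)
    rw [h, zero_dvd_iff] at h2
    omega
  have h2 : od L t ≠ 1 := by
    intro h
    have h3 := (od_dvd_iff (t := t) (m := 1) hL).1 (by rw [h])
    rw [one_mul] at h3
    exact absurd (Nat.le_of_dvd (Nat.pos_of_ne_zero ht.2) h3) (by omega)
  omega

theorem sum_sub_one {ι : Type} [Fintype ι] (s : Finset ι) (m : ι → ℕ) {L : ℕ} (hL : 0 < L)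
    (hm : ∀ i ∈ s, m i ∣ L) :
    ∑ i ∈ s, (m i - 1) = ∑ t ∈ nz L, (s.filter fun i => od L t ∣ m i).card := by
  classical
  rw [sum_congr rfl fun i hi => (card_nz hL (hm i hi)).symm]
  simp only [card_filter]
  rw [sum_comm]
  refine sum_congr rfl fun t _ => sum_congr rfl fun i _ => ?_
  simp only [od_dvd_iff hL]

theorem sum_sub_one_list (B : List ℕ) {L : ℕ} (hL : 0 < L) (hB : ∀ b ∈ B, b ∣ L) :
    (B.map fun b => b - 1).sum = ∑ t ∈ nz L, B.countP (fun b => od L t ∣ b) := by
  induction B with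
  | nil => simp
  | cons b B ih =>
    simp only [List.map_cons, List.sum_cons, List.countP_cons, decide_eq_true_eq]
    rw [ih fun x hx => hB x (by simp [hx]), sum_add_distrib, ← card_nz hL (hB b (by simp)),
      add_comm, card_filter]
    congr 1
    refine sum_congr rfl fun t _ => ?_
    simp only [od_dvd_iff hL]

section
variable {σ J : Type} [Fintype σ] [Fintype J]

/-- If every `h > 1` divides at least as many `d j` as members of `B` and `a i`, `i ∉ I`, then
`∑ (b - 1) + ∑ (a i - 1) ≤ ∑ (d j - 1)`. -/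
theorem compare (a : σ → ℕ) (ha : ∀ i, 0 < a i) (d : J → ℕ) (hd : ∀ j, 0 < d j) (B : List ℕ)
    (hB : ∀ b ∈ B, 0 < b) (O : Finset σ)
    (h : ∀ h : ℕ, 1 < h → B.countP (fun b => h ∣ b) + (O.filter fun i => h ∣ a i).card
      ≤ (univ.filter fun j => h ∣ d j).card) :
    (B.map fun b => b - 1).sum + ∑ i ∈ O, (a i - 1) ≤ ∑ j, (d j - 1) := by
  classical
  set L := B.prod * (∏ i, a i) * ∏ j, d j with hLd
  have hL : 0 < L := by
    refine Nat.mul_pos (Nat.mul_pos ?_ ?_) ?_
    · exact List.prod_pos fun b hb => hB b hb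
    · exact prod_pos fun i _ => ha i
    · exact prod_pos fun j _ => hd j
  rw [sum_sub_one_list B hL (fun b hb => ((List.dvd_prod hb).mul_right _).mul_right _),
    sum_sub_one O a hL (fun i _ => (((dvd_prod_of_mem a (mem_univ i)).mul_left _).mul_right _)),
    sum_sub_one univ d hL (fun j _ => (dvd_prod_of_mem d (mem_univ j)).mul_left _),
    ← sum_add_distrib]
  exact sum_le_sum fun t ht => h _ (one_lt_od ht)

/-- the bound for two degrees, one divisible by `a i0` only, the other one by `a i1` only -/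
theorem two_case (a : σ → ℕ) (ha : ∀ i, 0 < a i) (d : J → ℕ) (hd : ∀ j, 0 < d j)
    (hJ : Fintype.card J = 2)
    (H : ∀ h : ℕ, 1 < h → (univ.filter fun i => h ∣ a i).card ≤ (univ.filter fun j => h ∣ d j).card)
    {i0 i1 : σ} {j0 j1 : J} (h00 : a i0 ∣ d j0) (h01 : ¬ a i0 ∣ d j1) (h11 : a i1 ∣ d j1)
    (h10 : ¬ a i1 ∣ d j0) (hd0 : a i0 * a i1 + a i0 ≤ d j0) (hd1 : a i0 * a i1 + a i1 ≤ d j1) :
    a i0 * a i1 + ∑ i, (a i - 1) + 1 ≤ ∑ j, (d j - 1) + a i0 + a i1 := by
  classical
  set L := (∏ i, a i) * ∏ j, d j with hLd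
  have hL : 0 < L := by
    refine Nat.mul_pos ?_ ?_
    · exact prod_pos fun i _ => ha i
    · exact prod_pos fun j _ => hd j
  have haL : ∀ i, a i ∣ L := fun i => (dvd_prod_of_mem a (mem_univ i)).mul_right _
  have hdL : ∀ j, d j ∣ L := fun j => (dvd_prod_of_mem d (mem_univ j)).mul_left _
  have hj01 : j0 ≠ j1 := by rintro rfl; exact h01 h00
  -- prime powers
  have pp : ∀ {x y : ℕ}, ¬ x ∣ y → ∃ p k : ℕ, p.Prime ∧ p ^ k ∣ x ∧ ¬ p ^ k ∣ y := by
    intro x y h
    rw [Nat.dvd_iff_prime_pow_dvd_dvd] at h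
    push Not at h
    obtain ⟨p, k, h1, h2, h3⟩ := h
    exact ⟨p, k, h1, h2, h3⟩
  -- one half of the count
  have key : ∀ {i0 : σ} {j0 j1 : J}, j0 ≠ j1 → a i0 ∣ d j0 → ∀ {p k : ℕ}, p.Prime → p ^ k ∣ a i0 →
      ¬ p ^ k ∣ d j1 → ∃ T : Finset ℕ, T ⊆ nz L ∧ d j0 ≤ 2 * (T.card + a i0) ∧
        (∀ t ∈ T, od L t ∣ d j0 ∧ p ^ k ∣ od L t) ∧
        ∀ t ∈ T, (univ.filter fun i => od L t ∣ a i).card + 1
          ≤ (univ.filter fun j => od L t ∣ d j).card := by
    intro i0 j0 j1 hj h00 p k hp hpk hpk1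
    have hk : k ≠ 0 := by rintro rfl; simp at hpk1
    have hp1 : p ∣ d j0 := (dvd_pow_self p hk).trans (hpk.trans h00)
    obtain ⟨m, hm⟩ := hp1
    have hm0 : 0 < m := Nat.pos_of_ne_zero (by rintro rfl; have := hd j0; omega)
    have hmL : m ∣ L := (Dvd.intro_left p hm.symm).trans (hdL j0)
    have h2m : 2 * m ≤ d j0 := by
      rw [hm]
      exact Nat.mul_le_mul_right _ hp.two_le
    refine ⟨(nz L).filter fun t => od L t ∣ d j0 ∧ ¬ od L t ∣ m ∧ ¬ od L t ∣ a i0,
      filter_subset _ _, ?_, ?_, ?_⟩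
    · have h1 : (nz L).filter (fun t => L ∣ d j0 * t) ⊆
          (((nz L).filter fun t => od L t ∣ d j0 ∧ ¬ od L t ∣ m ∧ ¬ od L t ∣ a i0) ∪
            (nz L).filter fun t => L ∣ m * t) ∪ (nz L).filter fun t => L ∣ a i0 * t := by
        intro t ht
        simp only [mem_union, mem_filter, od_dvd_iff hL] at ht ⊢
        tauto
      have h2 := (card_le_card h1).trans (card_union_le _ _)
      have h3 := h2.trans (Nat.add_le_add_right (card_union_le _ _) _)
      rw [card_nz hL (hdL j0), card_nz hL hmL, card_nz hL (haL i0)] at h3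
      have := hd j0
      have := ha i0
      omega
    · intro t ht
      simp only [mem_filter] at ht
      obtain ⟨_, h1, h2, _⟩ := ht
      refine ⟨h1, ?_⟩
      by_contra hcon
      apply h2
      obtain ⟨w, hw⟩ := h1
      have hpw : p ∣ w := by
        by_contra hpw
        have h4 : p ^ k ∣ od L t * w := by
          rw [← hw]
          exact hpk.trans h00
        exact hcon ((Nat.Coprime.pow_left k ((Nat.Prime.coprime_iff_not_dvd hp).2 hpw)).dvd_of_dvd_mul_right h4)
      obtain ⟨w', rfl⟩ := hpw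
      refine ⟨w', ?_⟩
      have h5 : p * m = p * (od L t * w') := by
        rw [← hm, hw]
        ring
      exact Nat.eq_of_mul_eq_mul_left hp.pos h5
    · intro t ht
      have hpt : p ^ k ∣ od L t := by
        -- repeated from above
        simp only [mem_filter] at ht
        obtain ⟨_, h1, h2, _⟩ := ht
        by_contra hcon
        apply h2
        obtain ⟨w, hw⟩ := h1
        have hpw : p ∣ w := by
          by_contra hpw
          have h4 : p ^ k ∣ od L t * w := by
            rw [← hw]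
            exact hpk.trans h00
          exact hcon ((Nat.Coprime.pow_left k
            ((Nat.Prime.coprime_iff_not_dvd hp).2 hpw)).dvd_of_dvd_mul_right h4)
        obtain ⟨w', rfl⟩ := hpw
        refine ⟨w', ?_⟩
        have h5 : p * m = p * (od L t * w') := by
          rw [← hm, hw]
          ring
        exact Nat.eq_of_mul_eq_mul_left hp.pos h5
      simp only [mem_filter] at ht
      obtain ⟨_, h1, _, h3⟩ := ht
      have hpk2 : 1 < p ^ k := Nat.one_lt_pow hk hp.one_lt
      have hcJ : (univ.filter fun j => p ^ k ∣ d j).card ≤ 1 := by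
        have : (univ.filter fun j => p ^ k ∣ d j) ⊆ (univ : Finset J).erase j1 := by
          intro j hj'
          simp only [mem_filter, mem_univ, true_and, mem_erase, and_true] at hj' ⊢
          rintro rfl
          exact hpk1 hj'
        have h6 := card_le_card this
        rw [card_erase_of_mem (mem_univ _), card_univ, hJ] at h6
        exact h6
      have hcs := (H _ hpk2).trans hcJ
      have h4 : (univ.filter fun i => od L t ∣ a i) = ∅ := by
        rw [filter_eq_empty_iff]
        intro i _ hi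
        have h5 : i = i0 := by
          refine card_le_one.1 hcs i ?_ i0 ?_
          · simp only [mem_filter, mem_univ, true_and]
            exact hpt.trans hi
          · simp only [mem_filter, mem_univ, true_and]
            exact hpk
        exact h3 (h5 ▸ hi)
      rw [h4, card_empty, zero_add]
      exact card_pos.2 ⟨j0, by simp [h1]⟩
  obtain ⟨p, k, hp, hpk, hpk1⟩ := pp h01
  obtain ⟨q, l, hq, hql, hql1⟩ := pp h10
  obtain ⟨T0, hT0, hc0, hA0, hB0⟩ := key hj01 h00 hp hpk hpk1
  obtain ⟨T1, hT1, hc1, hA1, hB1⟩ := key hj01.symm h11 hq hql hql1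
  have hdis : Disjoint T0 T1 := by
    rw [Finset.disjoint_left]
    intro t h0 h1
    exact hpk1 ((hA0 t h0).2.trans (hA1 t h1).1)
  have hsum : ∑ i, (a i - 1) + (T0 ∪ T1).card ≤ ∑ j, (d j - 1) := by
    rw [sum_sub_one univ a hL (fun i _ => haL i), sum_sub_one univ d hL (fun j _ => hdL j)]
    have h1 : (T0 ∪ T1).card = ∑ t ∈ nz L, if t ∈ T0 ∪ T1 then 1 else 0 := by
      rw [← card_filter]
      congr 1
      ext t
      simp only [mem_filter]
      constructor
      · intro h
        refine ⟨?_, h⟩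
        rcases mem_union.1 h with h | h
        · exact hT0 h
        · exact hT1 h
      · exact fun h => h.2
    rw [h1, ← sum_add_distrib]
    refine sum_le_sum fun t ht => ?_
    split_ifs with h
    · rcases mem_union.1 h with h | h
      · exact hB0 t h
      · exact hB1 t h
    · exact H _ (one_lt_od ht)
  rw [card_union_of_disjoint hdis] at hsum
  have := ha i0
  have := ha i1
  omega

end

end Pool.Agent.Y188
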